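import Pool.Agent.Helper77_ZP3.LP2

/-!
Squad ZP3 (MP_6e1a06_nt), row LP1: first pattern `e < r`, reduction to the vertex.
-/

set_option autoImplicit false

namespace Pool.Agent.ZP3.H69

open Polynomial Pool.Agent.ZPT Pool.Agent.ZP3.H77

noncomputable section

section ultra

variable {K : Type} [NormedField K] [IsUltrametricDist K]

/-- powers of nearby elements -/
theorem pow_near {a b : K} {ρ : ℝ} (h0 : 0 ≤ ρ) (h1 : ρ < 1) (h : ‖a - b‖ ≤ ρ * ‖b‖) (n : ℕ) :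
    ‖a ^ n - b ^ n‖ ≤ ρ * ‖b‖ ^ n := by
  have hab : ‖a‖ ≤ ‖b‖ := by
    have e1 : a = (a - b) + b := by ring
    rw [e1]
    refine add_le' (h.trans ?_) le_rfl
    exact mul_le_of_le_one_left (norm_nonneg _) h1.le
  induction n with
  | zero =>
    rw [pow_zero, pow_zero, sub_self, norm_zero]
    positivity
  | succ n ih =>
    have e1 : a ^ (n + 1) - b ^ (n + 1) = (a ^ n - b ^ n) * a + b ^ n * (a - b) := by ring
    rw [e1]
    refine add_le' ?_ ?_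
    · rw [norm_mul, pow_succ, ← mul_assoc]
      gcongr
    · rw [norm_mul, norm_pow, pow_succ]
      calc ‖b‖ ^ n * ‖a - b‖ ≤ ‖b‖ ^ n * (ρ * ‖b‖) := by gcongr
        _ = ρ * (‖b‖ ^ n * ‖b‖) := by ring

end ultra

theorem lp1 (hTTL : TTLStmt) (hTAT : TATStmt) (hMTH : MTHStmt) (hRES : RESStmt) (hROU : ROUStmt)
    (hURR : URRStmt) (hURT : URTStmt) (hDEP : DEPStmt) (hTHB : THBStmt) (hSPL : SPLStmt) :
    LP1Stmt := by
  intro U hU p hp K _ _ _ _ _ hext e r A g₁ g₂ g₃ he her hpr hA hA0 hg1 hg2 hg3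
  have hp12 : 12 < p := by omega
  obtain ⟨th1, th0, thl, th3, th4⟩ := hTHB p hp (by omega)
  obtain ⟨r1, r2, r3, r4, r5⟩ := hURR p hp K hext
  obtain ⟨u1, hq⟩ := hTAT U hU p hp (by omega) K hext
  have hpn := norm_p hp hext
  have pR : (1 : ℝ) < p := by exact_mod_cast hp.one_lt
  have p0 : (0 : ℝ) < p := by linarith
  have pK : (p : K) ≠ 0 := by exact_mod_cast hp.pos.ne'
  have mulU : ∀ a b : K, Uu p a → Uu p b → Uu p (a * b) := fun a b ha hb =>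
    ⟨(r1 a b ha.1 hb.1).2.1, by rw [norm_mul, ha.2, hb.2, one_mul]⟩
  have negU : ∀ a : K, Uu p a → Uu p (-a) := fun a ha =>
    ⟨(r1 a a ha.1 ha.1).2.2.1, by rw [norm_neg, ha.2]⟩
  have divU : ∀ a b : K, Uu p a → Uu p b → Uu p (a / b) := fun a b ha hb => by
    rw [div_eq_mul_inv]; exact mulU _ _ ha (r5 b hb)
  have oneU : Uu p (1 : K) := ⟨by exact_mod_cast r3 1, norm_one⟩
  have powU : ∀ (a : K) (n : ℕ), Uu p a → Uu p (a ^ n) := fun a n ha => by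
    induction n with
    | zero => rw [pow_zero]; exact oneU
    | succ n ih => rw [pow_succ]; exact mulU _ _ ih ha
  have hα : Uu p (A 0) := ⟨hA 0, hA0⟩
  set α := A 0 with hαdef
  -- the `r`-th root of `α ^ e`
  obtain ⟨b, hb⟩ := IsAlgClosed.exists_pow_nat_eq (α ^ e) (by omega : 0 < r)
  have hbn : ‖b‖ = 1 := by
    have h1 := congrArg norm hb
    rw [norm_pow, norm_pow, hα.2, one_pow] at h1
    exact (pow_eq_one_iff_of_nonneg (norm_nonneg _) (by omega)).1 h1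
  have hbU : Uu p b := by
    refine (hURT p hp K hext).2 b r (by omega) ?_ hbn ?_
    · intro hd
      have := Nat.le_of_dvd (by omega) hd
      omega
    · rw [hb]
      exact (powU α e hα).1
  have bne : b ≠ 0 := norm_pos_iff.1 (by rw [hbn]; exact one_pos)
  have hB2 : Uu p (-1 / b : K) := divU _ _ (negU _ oneU) hbU
  have hB3 : Uu p (g₂ / g₃) := divU _ _ hg2 hg3
  obtain ⟨N2, hN2, k2⟩ := hRES p hp K hext (-(-1 / b / 1)) (negU _ (divU _ _ hB2 oneU)).1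
  obtain ⟨N3, hN3, k3⟩ := hRES p hp K hext (g₂ / g₃ / 1) (divU _ _ hB3 oneU).1
  obtain ⟨N4, hN4, k4⟩ := hRES p hp K hext (g₂ / g₃ / (-1 / b)) (divU _ _ hB3 hB2).1
  obtain ⟨N5, hN5, k5⟩ := hRES p hp K hext (g₂ / g₃) (divU _ _ hg2 hg3).1
  refine ⟨N2 * N3 * N4 * N5, ?_, fun t x₃ q₁ q₂ q₃ P => ?_⟩
  · exact Nat.one_le_iff_ne_zero.2 (by
      refine mul_ne_zero (mul_ne_zero (mul_ne_zero ?_ ?_) ?_) ?_ <;> omega)
  have dN5 : N5 ∣ N2 * N3 * N4 * N5 := dvd_mul_left _ _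
  have dN4 : N4 ∣ N2 * N3 * N4 * N5 := (dvd_mul_left _ _).mul_right _
  have dN3 : N3 ∣ N2 * N3 * N4 * N5 := ((dvd_mul_left _ _).mul_right _).mul_right _
  have dN2 : N2 ∣ N2 * N3 * N4 * N5 := ((dvd_mul_right _ _).mul_right _).mul_right _
  generalize N2 * N3 * N4 * N5 = M at dN2 dN3 dN4 dN5
  -- notation
  have q1ne : q₁ ≠ 0 := norm_pos_iff.1 P.q10
  have q2ne : q₂ ≠ 0 := norm_pos_iff.1 P.q20
  have q3ne : q₃ ≠ 0 := norm_pos_iff.1 P.q30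
  have tne : t ≠ 0 := norm_pos_iff.1 P.t0
  have g2ne : g₂ ≠ 0 := norm_pos_iff.1 (by rw [hg2.2]; exact one_pos)
  have g3ne : g₃ ≠ 0 := norm_pos_iff.1 (by rw [hg3.2]; exact one_pos)
  obtain ⟨n1, m1⟩ := hq q₁ P.q10 P.q11
  obtain ⟨n2, m2⟩ := hq q₂ P.q20 P.q21
  obtain ⟨n3, m3⟩ := hq q₃ P.q30 P.q31
  have hS := tail (fun n => (hA n).1) P.t1
  have E1 := P.e1
  have E2 := P.e2
  have E3 := P.e3
  set S := ∑' n : ℕ, A n * t ^ n with hSdef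
  set u := ((PowerSeries.coeff 1 U : ℚ) : K) with hudef
  set X₁ := jv U q₁ with hX1
  set X₂ := jv U q₂ with hX2
  set X₃ := jv U q₃ with hX3
  -- `q_i⁻¹ = X_i + O(1)`
  have m1' : ‖q₁⁻¹ - X₁‖ ≤ 1 := by
    have e1 : q₁⁻¹ - X₁ = (q₁⁻¹ - (X₁ - u)) - u := by ring
    rw [e1]; exact sub_le' (m1.trans P.q11.le) u1
  have m2' : ‖q₂⁻¹ - X₂‖ ≤ 1 := by
    have e1 : q₂⁻¹ - X₂ = (q₂⁻¹ - (X₂ - u)) - u := by ring
    rw [e1]; exact sub_le' (m2.trans P.q21.le) u1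
  have m3' : ‖q₃⁻¹ - X₃‖ ≤ 1 := by
    have e1 : q₃⁻¹ - X₃ = (q₃⁻¹ - (X₃ - u)) - u := by ring
    rw [e1]; exact sub_le' (m3.trans P.q31.le) u1
  have gn : ∀ g : K, ‖g‖ = 1 → ‖g / p‖ = p := fun g hg => by
    rw [norm_div, hg, hpn, one_div, inv_inv]
  have m3g : ‖q₃⁻¹ - g₃ / p‖ ≤ 1 := by
    have e1 : q₃⁻¹ - g₃ / p = (q₃⁻¹ - X₃) + x₃ := by rw [E3]; ring
    rw [e1]; exact add_le' m3' P.hx
  have hq3n : ‖q₃‖ = (p : ℝ)⁻¹ := by
    have h5 : ‖q₃⁻¹‖ = p := by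
      rw [← gn g₃ hg3.2]
      exact norm_eq' (by rw [gn g₃ hg3.2]; exact m3g.trans_lt pR)
    rw [← h5, norm_inv, inv_inv]
  have hθn : ‖(1 : K) / t ^ e‖ * ‖t‖ ^ e = 1 := by
    rw [norm_div, norm_one, norm_pow, one_div, inv_mul_cancel₀ (pow_ne_zero _ P.t0.ne')]
  set θ := (1 : K) / t ^ e with hθdef
  have θ0 : 0 < ‖θ‖ := norm_pos_iff.2 (by rw [hθdef]; exact one_div_ne_zero (pow_ne_zero _ tne))
  have thp1 : (p : ℝ)⁻¹ < th p := by
    refine th3.trans_le ?_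
    calc th p ^ 3 ≤ th p ^ 1 := pow_le_pow_of_le_one th0.le thl.le (by norm_num)
      _ = th p := pow_one _
  have one_lt : 1 < th p * p := by
    calc (1 : ℝ) = (p : ℝ)⁻¹ * p := (inv_mul_cancel₀ p0.ne').symm
      _ < th p * p := by gcongr
  have hn13 := P.d13
  have hn23 := P.d23
  rcases lt_or_ge ‖θ‖ (th p * p) with hnear | hfar
  · -- case 1
    left
    have a2 : ‖q₂⁻¹ - g₂ / p‖ < th p * p := by
      have e1 : q₂⁻¹ - g₂ / p = (q₂⁻¹ - X₂) + θ := by rw [E2]; ring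
      rw [e1]
      exact add_lt' (m2'.trans_lt one_lt) hnear
    have hlt : th p * p < p := by
      calc th p * p < 1 * p := by gcongr
        _ = p := one_mul _
    have b2 : ‖q₂⁻¹‖ = p := by
      rw [← gn g₂ hg2.2]
      exact norm_eq' (by rw [gn g₂ hg2.2]; exact a2.trans hlt)
    have hq2n : ‖q₂‖ = (p : ℝ)⁻¹ := by
      rw [← b2, norm_inv, inv_inv]
    obtain ⟨a, c, ha, hc, hac⟩ := hn23
    have hRo : Ro (q₂ / q₃) :=
      (hDEP K q₂ q₂ q₃ a c a c q3ne P.q31.ne ha hc ha hc hac hac).2.1 (hq2n.trans hq3n.symm)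
    have hRo' : Ro (q₃ / q₂) := by
      obtain ⟨m, hm, h⟩ := hRo
      refine ⟨m, hm, ?_⟩
      rw [← inv_div, inv_pow, h, inv_one]
    have hcl : ‖q₃ / q₂ - g₂ / g₃‖ < th p := by
      have e1 : q₃ / q₂ - g₂ / g₃ =
          ((q₂⁻¹ - g₂ / p) - (g₂ / g₃) * (q₃⁻¹ - g₃ / p)) * q₃ := by
        field_simp
        ring
      rw [e1, norm_mul, hq3n, ← div_eq_mul_inv, div_lt_iff₀ p0]
      refine sub_lt' a2 ?_
      rw [norm_mul, norm_div, hg2.2, hg3.2, div_one, one_mul]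
      exact m3g.trans_lt one_lt
    have htm := tame_of_near hROU hURR hURT hTHB hSPL hp (by omega) hext hRo' hB3.1 hcl
    exact (pw q2ne (k5 _ htm (hcl.trans thl)) dN5).symm
  · -- case 2
    set ρ : ℝ := (p : ℝ) ^ (-(1 : ℝ) / (2 * (e : ℝ))) with hρ
    have ρ0 : 0 < ρ := Real.rpow_pos_of_pos p0 _
    have hρ3 : ρ < th p ^ 3 := th4 e he (by omega)
    have ρe : ρ ^ (2 * e) = (p : ℝ)⁻¹ := by
      rw [hρ, ← Real.rpow_natCast, ← Real.rpow_mul p0.le]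
      have : -(1 : ℝ) / (2 * (e : ℝ)) * ((2 * e : ℕ) : ℝ) = -1 := by
        push_cast
        have he0 : (e : ℝ) ≠ 0 := by exact_mod_cast (by omega : e ≠ 0)
        field_simp
      rw [this, Real.rpow_neg_one]
    have ρ1 : ρ < 1 := hρ3.trans_le (pow_le_one₀ th0.le thl.le)
    have ρp : (p : ℝ)⁻¹ ≤ ρ ^ 2 := by
      rw [← ρe]
      exact pow_le_pow_of_le_one ρ0.le ρ1.le (by omega)
    have thp : (p : ℝ)⁻¹ ≤ th p ^ 2 := by
      rw [← th1]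
      exact pow_le_pow_of_le_one th0.le thl.le (by omega)
    have hρth : 1 ≤ ρ * (th p * p) := by
      have h1 : ((p : ℝ)⁻¹) ^ 2 ≤ (ρ * th p) ^ 2 := by
        rw [mul_pow, sq]
        gcongr
      have h2 : (p : ℝ)⁻¹ ≤ ρ * th p := le_of_sq_le_sq h1 (by positivity)
      calc (1 : ℝ) = (p : ℝ)⁻¹ * p := (inv_mul_cancel₀ p0.ne').symm
        _ ≤ (ρ * th p) * p := by gcongr
        _ = ρ * (th p * p) := by ring
    have hρp1 : 1 ≤ ρ * p := by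
      refine hρth.trans ?_
      gcongr
      exact mul_le_of_le_one_left p0.le thl.le
    have hpρ : (p : ℝ)⁻¹ ≤ ρ := by
      rw [inv_le_iff_one_le_mul₀ p0]
      exact hρp1
    -- `‖t‖ ≤ ρ`
    have htρ : ‖t‖ ≤ ρ := by
      have h0 : ‖t‖ ^ (2 * e) ≤ ρ ^ (2 * e) := by
        rw [ρe]
        have h1 : (‖θ‖ * ‖t‖ ^ e) ^ 2 = 1 := by rw [hθn, one_pow]
        have h2 : ‖θ‖ ^ 2 * ‖t‖ ^ (2 * e) = 1 := by
          rw [← h1, mul_pow, ← pow_mul, mul_comm e 2]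
        have h3 : (p : ℝ) ≤ ‖θ‖ ^ 2 := by
          calc (p : ℝ) = (p : ℝ)⁻¹ * p ^ 2 := by field_simp
            _ ≤ th p ^ 2 * p ^ 2 := by gcongr
            _ = (th p * p) ^ 2 := by ring
            _ ≤ ‖θ‖ ^ 2 := by gcongr
        rw [le_inv_comm₀ (by positivity) p0]
        have h4 : (‖t‖ ^ (2 * e))⁻¹ = ‖θ‖ ^ 2 := by
          rw [eq_comm]
          exact eq_inv_of_mul_eq_one_left h2
        rw [h4]
        exact h3
      exact le_of_pow_le_pow_left₀ (by omega) ρ0.le h0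
    -- `p ‖t‖ ≤ ρ ‖θ‖`
    have hpt : (p : ℝ) * ‖t‖ ≤ ρ * ‖θ‖ := by
      have h0 : ((p : ℝ) * ‖t‖) ^ (2 * e) ≤ (ρ * ‖θ‖) ^ (2 * e) := by
        rw [mul_pow, mul_pow, ρe]
        have h2 : ‖θ‖ ^ 2 * ‖t‖ ^ (2 * e) = 1 := by
          have h1 : (‖θ‖ * ‖t‖ ^ e) ^ 2 = 1 := by rw [hθn, one_pow]
          rw [← h1, mul_pow, ← pow_mul, mul_comm e 2]
        have h4 : ‖t‖ ^ (2 * e) = (‖θ‖ ^ 2)⁻¹ := eq_inv_of_mul_eq_one_right h2
        rw [h4, ← div_eq_mul_inv, div_le_iff₀ (by positivity)]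
        have h5 : (p : ℝ)⁻¹ ≤ th p ^ (2 * e + 2) := by
          rw [← th1]
          exact pow_le_pow_of_le_one th0.le thl.le (by omega)
        calc (p : ℝ) ^ (2 * e) = (p : ℝ)⁻¹ * ((p : ℝ)⁻¹ * p ^ (2 * e + 2)) := by
              rw [pow_add]
              field_simp
          _ ≤ (p : ℝ)⁻¹ * (th p ^ (2 * e + 2) * p ^ (2 * e + 2)) := by gcongr
          _ = (p : ℝ)⁻¹ * (th p * p) ^ (2 * e + 2) := by rw [mul_pow]
          _ ≤ (p : ℝ)⁻¹ * ‖θ‖ ^ (2 * e + 2) := by gcongr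
          _ = (p : ℝ)⁻¹ * ‖θ‖ ^ (2 * e) * ‖θ‖ ^ 2 := by rw [pow_add, mul_assoc]
      exact le_of_pow_le_pow_left₀ (by omega) (by positivity) h0
    -- `x₁ = S / t ^ r`
    have hSn : ‖S‖ = 1 := by
      have := norm_eq' (a := S) (b := α) (by rw [hα.2]; exact hS.trans_lt P.t1)
      rw [this, hα.2]
    have hx1n : ‖S / t ^ r‖ = (‖t‖ ^ r)⁻¹ := by
      rw [norm_div, hSn, norm_pow, one_div]
    have hx1p : (p : ℝ) ≤ ρ * ‖S / t ^ r‖ := by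
      rw [hx1n, ← div_eq_mul_inv, le_div_iff₀ (pow_pos P.t0 r)]
      have h1 : ‖t‖ ^ r ≤ ‖t‖ ^ (e + 1) := pow_le_pow_of_le_one (norm_nonneg _) P.t1.le her
      calc (p : ℝ) * ‖t‖ ^ r ≤ p * ‖t‖ ^ (e + 1) := by gcongr
        _ = p * ‖t‖ * ‖t‖ ^ e := by rw [pow_succ]; ring
        _ ≤ ρ * ‖θ‖ * ‖t‖ ^ e := by gcongr
        _ = ρ := by rw [mul_assoc, hθn, mul_one]
    have hM1 : ‖q₁⁻¹ - S / t ^ r‖ ≤ ρ * ‖S / t ^ r‖ := by
      have e1 : q₁⁻¹ - S / t ^ r = (q₁⁻¹ - X₁) + g₁ / p := by rw [E1]; ring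
      rw [e1]
      refine le_trans ?_ hx1p
      exact add_le' (m1'.trans pR.le) (gn g₁ hg1.2).le
    -- `x₁ ^ e` and `(b θ) ^ r`
    have hbθn : ‖(b * θ) ^ r‖ = ‖θ‖ ^ r := by
      rw [norm_pow, norm_mul, hbn, one_mul]
    have hx1e : (S / t ^ r) ^ e = S ^ e * θ ^ r := by
      rw [hθdef, div_pow, div_pow, one_pow, ← pow_mul, ← pow_mul, mul_comm e r]
      ring
    have hx1en : ‖S / t ^ r‖ ^ e = ‖θ‖ ^ r := by
      rw [← norm_pow, hx1e, norm_mul, norm_pow, hSn, one_pow, one_mul, norm_pow]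
    have hclose : ‖(q₁⁻¹) ^ e - (b * θ) ^ r‖ ≤ ρ * ‖(b * θ) ^ r‖ := by
      rw [hbθn]
      have e1 : (q₁⁻¹) ^ e - (b * θ) ^ r =
          ((q₁⁻¹) ^ e - (S / t ^ r) ^ e) + (S ^ e - α ^ e) * θ ^ r := by
        rw [mul_pow, hb, hx1e]
        ring
      rw [e1]
      refine add_le' ?_ ?_
      · have := pow_near ρ0.le ρ1 hM1 e
        rwa [hx1en] at this
      · rw [norm_mul, norm_pow]
        have h1 : ‖S - α‖ ≤ ρ * ‖α‖ := by
          rw [hα.2, mul_one]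
          exact hS.trans htρ
        have h2 := pow_near ρ0.le ρ1 h1 e
        rw [hα.2, one_pow, mul_one] at h2
        gcongr
    have hbθne : b * θ ≠ 0 := mul_ne_zero bne (norm_pos_iff.1 θ0)
    have hpr' : ¬ p ∣ r := fun hd => by
      have := Nat.le_of_dvd (by omega) hd
      omega
    obtain ⟨m, hm1, hm2⟩ := hMTH p hp K hext r ((q₁⁻¹) ^ e) (b * θ) ρ (by omega) hpr' hbθne ρ1
      hclose
    have mne : m ≠ 0 := by
      intro h0
      rw [h0, zero_pow (by omega)] at hm1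
      exact pow_ne_zero _ (inv_ne_zero q1ne) hm1.symm
    rw [norm_mul b θ, hbn, one_mul] at hm2
    -- the three term relation
    have hY3n : ‖g₂ / (p : K)‖ = p := gn g₂ hg2.2
    have hY3B : ‖g₂ / (p : K) - (g₂ / g₃) * q₃⁻¹‖ ≤ ρ * p := by
      have e1 : g₂ / (p : K) - (g₂ / g₃) * q₃⁻¹ = -((g₂ / g₃) * (q₃⁻¹ - g₃ / p)) := by
        field_simp
        ring
      rw [e1, norm_neg, norm_mul, norm_div, hg2.2, hg3.2, div_one, one_mul]
      exact m3g.trans hρp1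
    have hκ : ‖(p : K) * q₃⁻¹ - g₃‖ ≤ ρ := by
      have e1 : (p : K) * q₃⁻¹ - g₃ = p * (q₃⁻¹ - g₃ / p) := by field_simp
      rw [e1, norm_mul, hpn]
      refine le_trans ?_ hpρ
      exact mul_le_of_le_one_right (by positivity) m3g
    have hY1 : th p * p ≤ ‖X₂‖ → ‖X₂ - 1 * q₂⁻¹‖ ≤ ρ * ‖X₂‖ ∧
        ∃ a b : ℕ, 1 ≤ a ∧ 1 ≤ b ∧ q₂⁻¹ ^ a = q₃⁻¹ ^ b := by
      intro h
      refine ⟨?_, ?_⟩
      · have e1 : X₂ - 1 * q₂⁻¹ = -(q₂⁻¹ - X₂) := by ring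
        rw [e1, norm_neg]
        refine m2'.trans (hρth.trans ?_)
        gcongr
      · obtain ⟨c, d, hc, hd, hcd⟩ := hn23
        exact ⟨c, d, hc, hd, by rw [inv_pow, inv_pow, hcd]⟩
    have hY2 : th p * p ≤ ‖-θ‖ → ‖-θ - (-1 / b) * m‖ ≤ ρ * ‖-θ‖ ∧
        ∃ a b : ℕ, 1 ≤ a ∧ 1 ≤ b ∧ m ^ a = q₃⁻¹ ^ b := by
      intro _
      refine ⟨?_, ?_⟩
      · have e1 : -θ - (-1 / b) * m = (m - b * θ) / b := by
          field_simp
          ring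
        rw [e1, norm_neg, norm_div, hbn, div_one]
        exact hm2
      · obtain ⟨c, d, hc, hd, hcd⟩ := hn13
        refine ⟨r * c, e * d, Nat.one_le_iff_ne_zero.2 (Nat.mul_ne_zero (by omega) (by omega)),
          Nat.one_le_iff_ne_zero.2 (Nat.mul_ne_zero (by omega) (by omega)), ?_⟩
        rw [pow_mul, hm1, ← pow_mul, mul_comm e c, pow_mul, inv_pow, hcd, ← inv_pow, ← pow_mul,
          mul_comm d e]
    have hmain := hTTL p hp (by omega) K hext X₂ (-θ) (g₂ / p) q₂⁻¹ m q₃⁻¹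
      1 (-1 / b) (g₂ / g₃) g₃ ρ ρ0.le hρ3 (by rw [E2]; ring) hY3n oneU hB2 hB3 hg3 hY3B hκ hY1 hY2
    have i23 : q₂⁻¹ / q₃⁻¹ = q₃ / q₂ := by field_simp
    rw [i23] at hmain
    have hmr : ∀ N : ℕ, m ^ (r * N) = q₁⁻¹ ^ (e * N) := by
      intro N
      rw [pow_mul, hm1, ← pow_mul]
    rcases hmain with ⟨h1, h2, h3, h4⟩ | ⟨-, -, h3, h4⟩ | ⟨-, -, h3, h4⟩ | ⟨-, -, h3, h4⟩
    · -- case (a)
      right; right; right
      rw [norm_neg] at h2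
      refine ⟨?_, ?_, h3, m / q₃⁻¹, h4, ?_⟩
      · rw [h2] at hθn
        exact eq_inv_of_mul_eq_one_right hθn
      · rw [← h1, n2, inv_inv]
      · rw [div_pow, hm1, inv_pow, inv_pow]
        field_simp
    · -- case (b)
      right; right; left
      have h5 : ‖q₂⁻¹ / m - -(-1 / b / 1)‖ < 1 := by rwa [sub_neg_eq_add]
      have h6 := pw mne (k2 _ h3 h5) dN2
      have h7 : q₂⁻¹ ^ (r * M) = q₁⁻¹ ^ (e * M) := by
        rw [← hmr, mul_comm r M, pow_mul, h6, ← pow_mul]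
      rw [inv_pow, inv_pow, inv_inj] at h7
      exact h7.symm
    · left
      exact (pw q2ne (k3 _ h3 h4) dN3).symm
    · right; left
      have h6 := pw (inv_ne_zero q3ne) (k4 _ h3 h4) dN4
      have h7 : q₃⁻¹ ^ (r * M) = q₁⁻¹ ^ (e * M) := by
        rw [← hmr, mul_comm r M, pow_mul, ← h6, ← pow_mul]
      rw [inv_pow, inv_pow, inv_inj] at h7
      exact h7.symm

end

end Pool.Agent.ZP3.H69
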